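import Mathlib

/-!
# An abelian 10-power free morphism

`h(a) = aabaa`, `h(b) = aabababab`, with `a = false` and `b = true`.
-/

set_option autoImplicit false

namespace Pool.Agent.R123.FivePow

/-- the word `v` is an abelian `k`-power: a product of `k` nonempty words which are permutations of
each other -/
def AbelianPower (k : ℕ) (v : List Bool) : Prop :=
  ∃ ws : List (List Bool), ws.length = k ∧ v = ws.flatten ∧ (∀ u ∈ ws, u ≠ []) ∧
    ∀ u ∈ ws, ∀ u' ∈ ws, u.Perm u'

/-- no factor of `w` is an abelian `k`-power -/
def AbelianPowerFree (k : ℕ) (w : List Bool) : Prop :=
  ∀ s v t, w = s ++ v ++ t → ¬ AbelianPower k v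

/-- the morphism with the images `h a` of the letters maps abelian `k`-power free words to abelian
`k`-power free words -/
def AbelianPowerFreeMorphism (k : ℕ) (h : Bool → List Bool) : Prop :=
  ∀ w : List Bool, AbelianPowerFree k w → AbelianPowerFree k (w.flatMap h)

/-- the morphism -/
def h : Bool → List Bool
  | false => [false, false, true, false, false]
  | true => [false, false, true, false, true, false, true, false, true]

/-- the proper beginnings of the images of the letters -/
def PS : List (List Bool) :=
  [[], [false], [false, false], [false, false, true], [false, false, true, false],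
    [false, false, true, false, true], [false, false, true, false, true, false],
    [false, false, true, false, true, false, true],
    [false, false, true, false, true, false, true, false]]

/-- the value of a word: `|w|_a + 7 |w|_b` modulo 11 -/
def val (w : List Bool) : ℕ := (w.count false + 7 * w.count true) % 11

theorem val_append (u v : List Bool) : val (u ++ v) = (val u + val v) % 11 := by
  unfold val
  rw [List.count_append, List.count_append]
  omega

theorem counts (w : List Bool) :
    (w.flatMap h).count false = 4 * w.count false + 5 * w.count true ∧
      (w.flatMap h).count true = w.count false + 4 * w.count true := by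
  induction w with
  | nil => simp
  | cons x w ih =>
    rw [List.flatMap_cons, List.count_append, List.count_append, ih.1, ih.2]
    cases x
    · have h1 : (h false).count false = 4 := by decide
      have h2 : (h false).count true = 1 := by decide
      simp only [h1, h2, List.count_cons_self, List.count_cons_of_ne (by decide : false ≠ true)]
      omega
    · have h1 : (h true).count false = 5 := by decide
      have h2 : (h true).count true = 4 := by decide
      simp only [h1, h2, List.count_cons_self, List.count_cons_of_ne (by decide : true ≠ false)]
      omega

theorem val_flatMap (w : List Bool) : val (w.flatMap h) = 0 := by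
  unfold val
  rw [(counts w).1, (counts w).2]
  omega

theorem cut (w : List Bool) : ∀ (s t : List Bool), w.flatMap h = s ++ t →
    ∃ n p, s = (w.take n).flatMap h ++ p ∧ p ∈ PS := by
  induction w with
  | nil =>
    intro s t hst
    refine ⟨0, [], ?_, by decide⟩
    have := congrArg List.length hst
    simp only [List.flatMap_nil, List.length_nil, List.length_append] at this
    have hs : s.length = 0 := by omega
    rw [List.length_eq_zero_iff.1 hs]
    rfl
  | cons x w ih =>
    intro s t hst
    rw [List.flatMap_cons, List.append_eq_append_iff] at hst
    rcases hst with ⟨c, hs, hc⟩ | ⟨c, hx, -⟩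
    · obtain ⟨n, p, h1, h2⟩ := ih c t hc
      refine ⟨n + 1, p, ?_, h2⟩
      rw [List.take_succ_cons, List.flatMap_cons, hs, h1, List.append_assoc]
    · rcases Nat.eq_zero_or_pos c.length with h0 | h0
      · refine ⟨1, [], ?_, by decide⟩
        rw [List.length_eq_zero_iff.1 h0, List.append_nil] at hx
        simp [hx]
      · refine ⟨0, s, by simp, ?_⟩
        have h1 : s = (h x).take s.length := by rw [hx]; simp
        have h2 : s.length < (h x).length := by rw [hx, List.length_append]; omega
        rw [h1]
        generalize s.length = m at h2
        cases x
        · have : m < 5 := h2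
          interval_cases m <;> decide
        · have : m < 9 := h2
          interval_cases m <;> decide

theorem telescope (w : List Bool) (n : ℕ → ℕ) (k : ℕ) (hn : ∀ i, i < k → n i ≤ n (i + 1)) :
    w.take (n 0) ++ ((List.range k).map (fun i => (w.drop (n i)).take (n (i + 1) - n i))).flatten =
      w.take (n k) := by
  induction k with
  | zero => simp
  | succ k ih =>
    rw [List.range_succ, List.map_append, List.flatten_append, ← List.append_assoc,
      ih (fun i hi => hn i (by omega))]
    simp only [List.map_cons, List.map_nil, List.flatten_cons, List.flatten_nil, List.append_nil]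
    rw [← List.take_add, Nat.add_sub_cancel' (hn k (by omega))]

theorem all_values : ∀ v, v < 11 → ∀ G, G < 11 → G ≠ 0 → ∃ i, i < 11 ∧ (v + i * G) % 11 = 5 := by
  decide

theorem PS_ne : ∀ p ∈ PS, val p ≠ 5 := by decide

theorem PS_inj : ∀ p ∈ PS, ∀ q ∈ PS, val p = val q → p = q := by decide

theorem abelian_ten : AbelianPowerFreeMorphism 10 h := by
  rintro w hw s v t hst ⟨ws, hlen, rfl, hne, hperm⟩
  let g : ℕ → List Bool := fun i => s ++ (ws.take i).flatten
  have hcut : ∀ i, ∃ n p, g i = (w.take n).flatMap h ++ p ∧ p ∈ PS := by
    intro i
    apply cut w (g i) ((ws.drop i).flatten ++ t)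
    have h1 : (ws.take i).flatten ++ (ws.drop i).flatten = ws.flatten := by
      rw [← List.flatten_append, List.take_append_drop]
    rw [hst, ← h1]
    simp [g]
  choose n p hg hp using hcut
  have hstep : ∀ i, (hi : i < 10) → g (i + 1) = g i ++ ws[i] := by
    intro i hi
    simp only [g]
    rw [← List.take_concat_get' ws i (by omega), List.flatten_append, List.append_assoc]
    simp
  have hmem : ∀ i, (hi : i < 10) → ws[i] ∈ ws := fun i hi => List.getElem_mem _
  -- the common value of the words
  have hval : ∀ i, (hi : i < 10) → val ws[i] = val ws[0] := by
    intro i hi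
    have h1 := hperm _ (hmem i hi) _ (hmem 0 (by norm_num))
    unfold val
    rw [h1.count_eq, h1.count_eq]
  have hvp : ∀ i, val (p i) = val (g i) := by
    intro i
    rw [hg i, val_append, val_flatMap, zero_add]
    exact (Nat.mod_eq_of_lt (Nat.mod_lt _ (by norm_num))).symm
  have hvg : ∀ i, i < 11 → val (g i) = (val (g 0) + i * val ws[0]) % 11 := by
    intro i
    induction i with
    | zero =>
      intro _
      simp only [zero_mul, add_zero]
      exact (Nat.mod_eq_of_lt (Nat.mod_lt _ (by norm_num))).symm
    | succ i ih =>
      intro hi
      rw [hstep i (by omega), val_append, ih (by omega), hval i (by omega), Nat.mod_add_mod]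
      ring_nf
  have hG : val ws[0] = 0 := by
    by_contra hG
    obtain ⟨i, hi, h5⟩ := all_values (val (g 0)) (Nat.mod_lt _ (by norm_num)) (val ws[0])
      (Nat.mod_lt _ (by norm_num)) hG
    rw [← hvg i hi, ← hvp i] at h5
    exact PS_ne _ (hp i) h5
  have hpp : ∀ i, i < 11 → p i = p 0 := by
    intro i hi
    apply PS_inj _ (hp i) _ (hp 0)
    rw [hvp, hvp, hvg i hi, hG, mul_zero, add_zero]
    exact Nat.mod_eq_of_lt (Nat.mod_lt _ (by norm_num))
  -- the cuts move
  have hmov : ∀ i, i < 10 → n i < n (i + 1) := by
    intro i hi
    by_contra hcon
    push Not at hcon
    have h1 := congrArg List.length (hstep i hi)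
    rw [hg i, hg (i + 1), hpp i (by omega), hpp (i + 1) (by omega)] at h1
    simp only [List.length_append] at h1
    have h2 := List.length_pos_iff.2 (hne _ (hmem i hi))
    have h3 : (w.take (n i)) = w.take (n (i + 1)) ++ (w.drop (n (i + 1))).take (n i - n (i + 1)) := by
      rw [← List.take_add, Nat.add_sub_cancel' hcon]
    rw [h3, List.flatMap_append, List.length_append] at h1
    omega
  -- the new words
  let u : ℕ → List Bool := fun i => (w.drop (n i)).take (n (i + 1) - n i)
  have hu : ∀ i, (hi : i < 10) → (u i).flatMap h ++ p 0 = p 0 ++ ws[i] := by
    intro i hi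
    have h1 := hstep i hi
    have h3 : (w.take (n (i + 1))) = w.take (n i) ++ u i := by
      rw [← List.take_add, Nat.add_sub_cancel' (hmov i hi).le]
    rw [hg i, hg (i + 1), hpp i (by omega), hpp (i + 1) (by omega), h3, List.flatMap_append,
      List.append_assoc, List.append_assoc] at h1
    exact List.append_cancel_left h1
  have hcount : ∀ i, (hi : i < 10) → 4 * (u i).count false + 5 * (u i).count true =
      ws[i].count false ∧ (u i).count false + 4 * (u i).count true = ws[i].count true := by
    intro i hi
    have h1 := congrArg (List.count false) (hu i hi)
    have h2 := congrArg (List.count true) (hu i hi)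
    rw [List.count_append, List.count_append, (counts _).1] at h1
    rw [List.count_append, List.count_append, (counts _).2] at h2
    omega
  apply hw (w.take (n 0)) (((List.range 10).map u).flatten) (w.drop (n 10))
  · rw [telescope w n 10 (fun i hi => (hmov i hi).le), List.take_append_drop]
  · refine ⟨(List.range 10).map u, by simp, rfl, ?_, ?_⟩
    · intro x hx
      rw [List.mem_map] at hx
      obtain ⟨i, hi, rfl⟩ := hx
      rw [List.mem_range] at hi
      intro h0
      have h1 := hcount i hi
      rw [h0] at h1
      simp only [List.count_nil] at h1
      have h2 : ws[i].length = ws[i].count false + ws[i].count true := by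
        rw [add_comm]; exact (List.count_true_add_count_false (l := ws[i])).symm
      have h3 := List.length_pos_iff.2 (hne _ (hmem i hi))
      omega
    · intro x hx x' hx'
      rw [List.mem_map] at hx hx'
      obtain ⟨i, hi, rfl⟩ := hx
      obtain ⟨i', hi', rfl⟩ := hx'
      rw [List.mem_range] at hi hi'
      have h1 := hcount i hi
      have h2 := hcount i' hi'
      have h3 := hperm _ (hmem i hi) _ (hmem i' hi')
      rw [h3.count_eq, h3.count_eq] at h1
      rw [List.perm_iff_count]
      intro c
      cases c <;> omega

end Pool.Agent.R123.FivePow
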