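import Pool.Agent.R123.Words.Morphic
import Pool.Agent.R123.FivePow.Abelian

/-!
# The fixed point of `a ↦ aabaa`, `b ↦ aabababab` is 5-power free
-/

set_option autoImplicit false

namespace Pool.Agent.R123.FivePow

open Pool.Agent.R123.Words

/-- the fixed point -/
noncomputable def y : ℕ → Bool := fixedWord h false

theorem y_fixed : IsFixedPoint h false y :=
  isFixedPoint_fixedWord ⟨_, rfl⟩ (by decide) (by decide)

/-- the beginning of the image of letter number `n` -/
noncomputable def P (n : ℕ) : ℕ := pos h y n

theorem P_zero : P 0 = 0 := pos_zero h y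

theorem P_a {n : ℕ} (hn : y n = false) : P (n + 1) = P n + 5 ∧ y (P n) = false ∧
    y (P n + 1) = false ∧ y (P n + 2) = true ∧ y (P n + 3) = false ∧ y (P n + 4) = false := by
  have h1 := pos_succ h y n
  have h2 := y_fixed.y_pos n
  rw [hn] at h1 h2
  have e0 := h2 0 (by decide)
  have e1 := h2 1 (by decide)
  have e2 := h2 2 (by decide)
  have e3 := h2 3 (by decide)
  have e4 := h2 4 (by decide)
  simp only [h, List.getElem?_cons_zero, List.getElem?_cons_succ, Option.some.injEq] at e0 e1 e2 e3 e4
  exact ⟨h1, e0.symm, e1.symm, e2.symm, e3.symm, e4.symm⟩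

theorem P_b {n : ℕ} (hn : y n = true) : P (n + 1) = P n + 9 ∧ y (P n) = false ∧
    y (P n + 1) = false ∧ y (P n + 2) = true ∧ y (P n + 3) = false ∧ y (P n + 4) = true ∧
    y (P n + 5) = false ∧ y (P n + 6) = true ∧ y (P n + 7) = false ∧ y (P n + 8) = true := by
  have h1 := pos_succ h y n
  have h2 := y_fixed.y_pos n
  rw [hn] at h1 h2
  have e0 := h2 0 (by decide)
  have e1 := h2 1 (by decide)
  have e2 := h2 2 (by decide)
  have e3 := h2 3 (by decide)
  have e4 := h2 4 (by decide)
  have e5 := h2 5 (by decide)
  have e6 := h2 6 (by decide)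
  have e7 := h2 7 (by decide)
  have e8 := h2 8 (by decide)
  simp only [h, List.getElem?_cons_zero, List.getElem?_cons_succ, Option.some.injEq] at e0 e1 e2 e3 e4 e5 e6 e7 e8
  exact ⟨h1, e0.symm, e1.symm, e2.symm, e3.symm, e4.symm, e5.symm, e6.symm, e7.symm, e8.symm⟩

theorem P_step (n : ℕ) : P n + 5 ≤ P (n + 1) ∧ P (n + 1) ≤ P n + 9 := by
  cases hn : y n
  · have := (P_a hn).1; omega
  · have := (P_b hn).1; omega

/-- the fifth letter of an image is the letter itself -/
theorem y_four (n : ℕ) : y (P n + 4) = y n := by
  cases hn : y n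
  · exact (P_a hn).2.2.2.2.2
  · exact (P_b hn).2.2.2.2.2.1

/-- the last letter of an image is the letter itself -/
theorem y_last (n : ℕ) : y (P (n + 1) - 1) = y n := by
  cases hn : y n
  · have h1 := P_a hn
    rw [h1.1]
    exact h1.2.2.2.2.2
  · have h1 := P_b hn
    rw [h1.1]
    exact h1.2.2.2.2.2.2.2.2.2

theorem y_start (n : ℕ) : y (P n) = false ∧ y (P n + 1) = false ∧ y (P n + 2) = true ∧
    y (P n + 3) = false := by
  cases hn : y n
  · obtain ⟨-, a0, a1, a2, a3, -⟩ := P_a hn
    exact ⟨a0, a1, a2, a3⟩
  · obtain ⟨-, a0, a1, a2, a3, -⟩ := P_b hn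
    exact ⟨a0, a1, a2, a3⟩

theorem P_add (n k : ℕ) : P n + 5 * k ≤ P (n + k) := by
  induction k with
  | zero => simp
  | succ k ih =>
    have := P_step (n + k)
    rw [← add_assoc]
    omega

/-- every place lies in the image of a letter -/
theorem exists_block (t : ℕ) : ∃ n, P n ≤ t ∧ t < P (n + 1) := by
  induction t with
  | zero => exact ⟨0, by rw [P_zero], by have := P_step 0; omega⟩
  | succ t ih =>
    obtain ⟨n, h1, h2⟩ := ih
    rcases Nat.lt_or_ge (t + 1) (P (n + 1)) with h3 | h3
    · exact ⟨n, by omega, h3⟩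
    · exact ⟨n + 1, h3, by have := P_step (n + 1); omega⟩

theorem no_bb (n : ℕ) : ¬ (y n = true ∧ y (n + 1) = true) := by
  rintro ⟨h1, h2⟩
  obtain ⟨m, hm1, hm2⟩ := exists_block n
  obtain ⟨r, rfl⟩ : ∃ r, n = P m + r := ⟨n - P m, by omega⟩
  have hs := (y_start (m + 1)).1
  have key : ∀ {c : Bool}, c = false → c = true → False := fun h0 h1 => by rw [h0] at h1; cases h1
  cases hy : y m
  · obtain ⟨e, a0, a1, a2, a3, a4⟩ := P_a hy
    have hr : r < 5 := by omega
    interval_cases r
    · exact key a0 h1
    · exact key a1 h1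
    · exact key a3 h2
    · exact key a3 h1
    · exact key a4 h1
  · obtain ⟨e, a0, a1, a2, a3, a4, a5, a6, a7, a8⟩ := P_b hy
    have hr : r < 9 := by omega
    interval_cases r
    · exact key a0 h1
    · exact key a1 h1
    · exact key a3 h2
    · exact key a3 h1
    · exact key a5 h2
    · exact key a5 h1
    · exact key a7 h2
    · exact key a7 h1
    · rw [e] at hs
      exact key hs h2

/-- the word `aaba` occurs only at the beginnings of the images -/
theorem sync {t : ℕ} (h0 : y t = false) (h1 : y (t + 1) = false) (h2 : y (t + 2) = true)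
    (h3 : y (t + 3) = false) : ∃ n, P n = t := by
  obtain ⟨m, hm1, hm2⟩ := exists_block t
  obtain ⟨r, rfl⟩ : ∃ r, t = P m + r := ⟨t - P m, by omega⟩
  obtain ⟨s0, s1, s2, s3⟩ := y_start (m + 1)
  rcases Nat.eq_zero_or_pos r with rfl | hr0
  · exact ⟨m, by simp⟩
  exfalso
  have key : ∀ {c : Bool}, c = false → c = true → False := fun h0 h1 => by rw [h0] at h1; cases h1
  cases hy : y m
  · obtain ⟨e, a0, a1, a2, a3, a4⟩ := P_a hy
    rw [e] at s0 s1 s2 s3
    have hr : r < 5 := by omega
    interval_cases r
    · exact key h1 a2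
    · exact key h0 a2
    · exact key s0 h2
    · exact key s1 h2
  · obtain ⟨e, a0, a1, a2, a3, a4, a5, a6, a7, a8⟩ := P_b hy
    rw [e] at s0 s1 s2 s3
    have hr : r < 9 := by omega
    interval_cases r
    · exact key h1 a2
    · exact key h0 a2
    · exact key h1 a4
    · exact key h0 a4
    · exact key h1 a6
    · exact key h0 a6
    · exact key h1 a8
    · exact key h0 a8

/-! ## Short periods -/

/-- the words `s` and `t` differ at one of the first `k` places -/
def mis : List Bool → List Bool → ℕ → Bool
  | a :: s, b :: t, k + 1 => (a != b) || mis s t k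
  | _, _, _ => false

theorem mis_spec (s t : List Bool) (k : ℕ) (h : mis s t k = true) :
    ∃ j, j < k ∧ ∃ a b, s[j]? = some a ∧ t[j]? = some b ∧ a ≠ b := by
  induction s generalizing t k with
  | nil => simp [mis] at h
  | cons a s ih =>
    cases t with
    | nil => simp [mis] at h
    | cons b t =>
      cases k with
      | zero => simp [mis] at h
      | succ k =>
        rw [mis, Bool.or_eq_true] at h
        rcases h with h | h
        · exact ⟨0, by omega, a, b, rfl, rfl, by simpa using h⟩
        · obtain ⟨j, hj, a', b', h1, h2, h3⟩ := ih t k h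
          exact ⟨j + 1, by omega, a', b', by simpa using h1, by simpa using h2, h3⟩

/-- all numbers below `n` -/
def allN : ℕ → (ℕ → Bool) → Bool
  | 0, _ => true
  | n + 1, f => f n && allN n f

theorem allN_spec (n : ℕ) (f : ℕ → Bool) (h : allN n f = true) (k : ℕ) (hk : k < n) :
    f k = true := by
  induction n with
  | zero => omega
  | succ n ih =>
    rw [allN, Bool.and_eq_true] at h
    rcases Nat.lt_or_ge k n with h1 | h1
    · exact ih h.2 h1
    · have : k = n := by omega
      rw [this]; exact h.1

/-- no 5-power with period at most 12 begins at one of the first `n` places of `l` -/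
def tails : ℕ → List Bool → Bool
  | 0, _ => true
  | n + 1, l => allN 12 (fun q => mis l (l.drop (q + 1)) (4 * (q + 1))) && tails n l.tail

theorem tails_spec (n : ℕ) (l : List Bool) (h : tails n l = true) (i : ℕ) (hi : i < n) (q : ℕ)
    (hq : q < 12) : ∃ j, j < 4 * (q + 1) ∧ ∃ a b, l[i + j]? = some a ∧
      l[i + (q + 1) + j]? = some b ∧ a ≠ b := by
  induction n generalizing l i with
  | zero => omega
  | succ n ih =>
    rw [tails, Bool.and_eq_true] at h
    cases i with
    | zero =>
      obtain ⟨j, hj, a, b, h1, h2, h3⟩ := mis_spec _ _ _ (allN_spec _ _ h.1 q hq)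
      rw [List.getElem?_drop] at h2
      exact ⟨j, hj, a, b, by simpa using h1, by simpa using h2, h3⟩
    | succ i =>
      obtain ⟨j, hj, a, b, h1, h2, h3⟩ := ih l.tail h.2 i (by omega)
      rw [List.getElem?_tail] at h1 h2
      refine ⟨j, hj, a, b, ?_, ?_, h3⟩
      · rw [← h1]; congr 1; ring
      · rw [← h2]; congr 1; ring

def all2 (f : Bool → Bool) : Bool := f false && f true

theorem all2_spec (f : Bool → Bool) (h : all2 f = true) (a : Bool) : f a = true := by
  unfold all2 at h
  rw [Bool.and_eq_true] at h
  cases a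
  · exact h.1
  · exact h.2

def check : Bool :=
  all2 fun a => all2 fun b => all2 fun c => all2 fun d => all2 fun e =>
    (a && b) || (b && c) || (c && d) || (d && e) ||
      tails 61 (([a, b, c, d, e].flatMap h).flatMap h)

set_option maxRecDepth 100000 in
theorem check_true : check = true := by decide +kernel

theorem short (i p : ℕ) (hp : 0 < p) (hp' : p ≤ 12) :
    ∃ j, j < 4 * p ∧ y (i + j) ≠ y (i + p + j) := by
  obtain ⟨n, hn1, hn2⟩ := exists_block i
  obtain ⟨m, hm1, hm2⟩ := exists_block n
  have hc := all2_spec _ (all2_spec _ (all2_spec _ (all2_spec _ (all2_spec _ check_true (y m))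
    (y (m + 1))) (y (m + 1 + 1))) (y (m + 1 + 1 + 1))) (y (m + 1 + 1 + 1 + 1))
  simp only [Bool.or_eq_true, Bool.and_eq_true] at hc
  rcases hc with (((hc | hc) | hc) | hc) | hc
  · exact absurd hc (no_bb _)
  · exact absurd hc (no_bb _)
  · exact absurd hc (no_bb _)
  · exact absurd hc (no_bb _)
  · have hf : [y m, y (m + 1), y (m + 1 + 1), y (m + 1 + 1 + 1), y (m + 1 + 1 + 1 + 1)] =
        fac y m 5 := by
      rw [fac_succ', fac_succ', fac_succ', fac_succ', fac_succ']; rfl
    rw [hf, y_fixed.flat, y_fixed.flat] at hc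
    change tails 61 (fac y (P (P m)) (P (P m + (P (m + 5) - P m)) - P (P m))) = true at hc
    -- the place `i` is at distance at most 60 from the beginning of the double image
    have hd : i < P (P m) + 61 := by
      cases hy : y m
      · obtain ⟨e, a0, a1, a2, a3, a4⟩ := P_a hy
        have e0 := (P_a a0).1
        have e1 := (P_a a1).1
        have e2 := (P_b a2).1
        have e3 := (P_a a3).1
        have e4 := (P_a a4).1
        have hle : P (n + 1) ≤ P (P m + 5) := pos_mono h y (by omega)
        simp only [add_assoc] at e0 e1 e2 e3 e4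
        norm_num at e0 e1 e2 e3 e4
        omega
      · obtain ⟨e, a0, a1, a2, a3, a4, a5, a6, a7, a8⟩ := P_b hy
        have e0 := (P_a a0).1
        have e1 := (P_a a1).1
        have e2 := (P_b a2).1
        have e3 := (P_a a3).1
        have e4 := (P_b a4).1
        have e5 := (P_a a5).1
        have e6 := (P_b a6).1
        have e7 := (P_a a7).1
        have e8 := (P_b a8).1
        have hle : P (n + 1) ≤ P (P m + 9) := pos_mono h y (by omega)
        simp only [add_assoc] at e0 e1 e2 e3 e4 e5 e6 e7 e8
        norm_num at e0 e1 e2 e3 e4 e5 e6 e7 e8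
        omega
    have hle : P (P m) ≤ i := le_trans (pos_mono h y hm1) hn1
    obtain ⟨j, hj, a, b, h1, h2, h3⟩ := tails_spec _ _ hc (i - P (P m)) (by omega) (p - 1)
      (by omega)
    have l1 := List.getElem?_eq_some_iff.1 h1
    have l2 := List.getElem?_eq_some_iff.1 h2
    obtain ⟨l1, -⟩ := l1
    obtain ⟨l2, -⟩ := l2
    rw [fac_length] at l1 l2
    rw [fac_getElem? _ _ _ _ l1, Option.some.injEq] at h1
    rw [fac_getElem? _ _ _ _ l2, Option.some.injEq] at h2
    refine ⟨j, by omega, ?_⟩
    rw [show P (P m) + (i - P (P m) + j) = i + j by omega] at h1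
    rw [show P (P m) + (i - P (P m) + (p - 1 + 1) + j) = i + p + j by omega] at h2
    rw [h1, h2]
    exact h3

/-! ## All periods -/

theorem five_free (p : ℕ) : ∀ i, 0 < p → ∃ j, j < 4 * p ∧ y (i + j) ≠ y (i + p + j) := by
  induction p using Nat.strong_induction_on with
  | _ p ih =>
  intro i hp
  rcases Nat.lt_or_ge 12 p with hbig | hsmall
  swap
  · exact short i p hp hsmall
  by_contra hcon
  push Not at hcon
  -- the first image beginning at or after `i`
  obtain ⟨n, hn1, hn2⟩ : ∃ n, i ≤ P n ∧ (P n = i ∨ ∃ n', n = n' + 1 ∧ P n' < i ∧ i < P (n' + 1)) := by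
    obtain ⟨n, h1, h2⟩ := exists_block i
    rcases Nat.eq_or_lt_of_le h1 with h3 | h3
    · exact ⟨n, h3.ge, Or.inl h3⟩
    · exact ⟨n + 1, h2.le, Or.inr ⟨n, rfl, h3, h2⟩⟩
  have hn3 : P n ≤ i + 8 := by
    rcases hn2 with h1 | ⟨n', rfl, h1, -⟩
    · omega
    · have := P_step n'; omega
  have hper : ∀ t, i ≤ t → t < i + 4 * p → y (t + p) = y t := by
    intro t h1 h2
    have := hcon (t - i) (by omega)
    rw [show i + (t - i) = t by omega, show i + p + (t - i) = t + p by omega] at this
    exact this.symm
  obtain ⟨n1, hn4⟩ : ∃ n1, P n1 = P n + p := by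
    obtain ⟨s0, s1, s2, s3⟩ := y_start n
    apply sync
    · rw [hper _ (by omega) (by omega)]; exact s0
    · rw [show P n + p + 1 = P n + 1 + p by ring, hper _ (by omega) (by omega)]; exact s1
    · rw [show P n + p + 2 = P n + 2 + p by ring, hper _ (by omega) (by omega)]; exact s2
    · rw [show P n + p + 3 = P n + 3 + p by ring, hper _ (by omega) (by omega)]; exact s3
  obtain ⟨m, rfl⟩ : ∃ m, n1 = n + m := by
    refine ⟨n1 - n, ?_⟩
    by_contra hne
    have : P n1 ≤ P n := pos_mono h y (by omega)
    omega
  have hm0 : 0 < m := by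
    rcases Nat.eq_zero_or_pos m with rfl | h0
    · simp at hn4; omega
    · exact h0
  have hmp : m < p := by
    have := P_add n m
    omega
  -- images in the two shifted copies agree
  have hk : ∀ k, (k = 0 ∨ P (n + k - 1) + 4 < i + 4 * p) → P (n + k + m) = P (n + k) + p := by
    intro k
    induction k with
    | zero => intro _; exact hn4
    | succ k ihk =>
      intro hk
      have hk' : P (n + k) + 4 < i + 4 * p := by
        rcases hk with h1 | h1
        · omega
        · exact h1
      have hP : P (n + k + m) = P (n + k) + p := by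
        apply ihk
        rcases Nat.eq_zero_or_pos k with h0 | h0
        · exact Or.inl h0
        · right
          have : P (n + k - 1) ≤ P (n + k) := pos_mono h y (by omega)
          omega
      have hY : y (n + k + m) = y (n + k) := by
        rw [← y_four (n + k + m), ← y_four (n + k), hP,
          show P (n + k) + p + 4 = P (n + k) + 4 + p by ring]
        apply hper
        · have : P n ≤ P (n + k) := pos_mono h y (by omega)
          omega
        · exact hk'
      have e1 : P (n + k + m + 1) = P (n + k + m) + (P (n + k + 1) - P (n + k)) := by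
        cases hy : y (n + k)
        · rw [(P_a hy).1, (P_a (hY.trans hy)).1]; omega
        · rw [(P_b hy).1, (P_b (hY.trans hy)).1]; omega
      have := P_step (n + k)
      rw [show n + (k + 1) + m = n + k + m + 1 by ring, show n + (k + 1) = n + k + 1 by ring, e1]
      omega
  have hkY : ∀ k, P (n + k) + 4 < i + 4 * p → y (n + k + m) = y (n + k) := by
    intro k hk'
    have hP : P (n + k + m) = P (n + k) + p := by
      apply hk
      rcases Nat.eq_zero_or_pos k with h0 | h0
      · exact Or.inl h0
      · right
        have : P (n + k - 1) ≤ P (n + k) := pos_mono h y (by omega)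
        omega
    rw [← y_four (n + k + m), ← y_four (n + k), hP,
      show P (n + k) + p + 4 = P (n + k) + 4 + p by ring]
    apply hper
    · have : P n ≤ P (n + k) := pos_mono h y (by omega)
      omega
    · exact hk'
  have e1 : P (n + m) = P n + p := hn4
  have hkm : ∀ k, P (n + k) + 4 < i + 4 * p → P (n + k + m) = P (n + k) + p := by
    intro k hk'
    apply hk
    rcases Nat.eq_zero_or_pos k with h0 | h0
    · exact Or.inl h0
    · right
      have : P (n + k - 1) ≤ P (n + k) := pos_mono h y (by omega)
      omega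
  have e2 : P (n + 2 * m) = P n + 2 * p := by
    have := hkm m (by omega)
    rw [show n + 2 * m = n + m + m by ring]; omega
  have e3 : P (n + 3 * m) = P n + 3 * p := by
    have := hkm (2 * m) (by omega)
    rw [show n + 3 * m = n + 2 * m + m by ring]; omega
  have e4 : P (n + 4 * m) = P n + 4 * p := by
    have := hkm (3 * m) (by omega)
    rw [show n + 4 * m = n + 3 * m + m by ring]; omega
  rcases hn2 with hn2 | ⟨n', rfl, hn2, hn5⟩
  · -- the 5-power begins with an image
    obtain ⟨j, hj, hne⟩ := ih m hmp n hm0
    apply hne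
    have hlt : P (n + j) + 5 ≤ P (n + 4 * m) := by
      have h1 := P_step (n + j)
      have h2 : P (n + j + 1) ≤ P (n + 4 * m) := pos_mono h y (by omega)
      omega
    rw [show n + m + j = n + j + m by ring]
    exact (hkY j (by omega)).symm
  · -- the 5-power begins inside the image of letter number `n'`
    have hz : y (n' + m) = y n' := by
      have h1 := y_last n'
      have h2 := y_last (n' + m)
      rw [show n' + m + 1 = n' + 1 + m by ring, e1] at h2
      have h3 := P_step n'
      rw [← h1, ← h2, show P (n' + 1) + p - 1 = P (n' + 1) - 1 + p by omega]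
      exact hper _ (by omega) (by omega)
    -- the letter before the last copy
    have hzz : ∀ c, c ≤ 3 → y (n' + c * m + m) = y (n' + c * m) := by
      intro c hc
      rcases Nat.eq_zero_or_pos c with rfl | hc0
      · simpa using hz
      · obtain ⟨k, hk1⟩ : ∃ k, c * m = k + 1 := ⟨c * m - 1, by
          have : 0 < c * m := Nat.mul_pos hc0 hm0
          omega⟩
        have h1 : P (n' + 1 + k) + 4 < i + 4 * p := by
          have h2 : n' + 1 + k + 1 ≤ n' + 1 + 3 * m := by nlinarith
          have h3 : P (n' + 1 + k + 1) ≤ P (n' + 1 + 3 * m) := pos_mono h y h2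
          have h4 := P_step (n' + 1 + k)
          omega
        have h2 := hkY k h1
        rw [hk1, show n' + (k + 1) + m = n' + 1 + k + m by ring,
          show n' + (k + 1) = n' + 1 + k by ring]
        exact h2
    have hlast : y (n' + 4 * m) = y n' := by
      have h0 := hzz 0 (by norm_num)
      have h1 := hzz 1 (by norm_num)
      have h2 := hzz 2 (by norm_num)
      have h3 := hzz 3 (by norm_num)
      rw [show n' + 0 * m + m = n' + 1 * m by ring, show n' + 0 * m = n' by ring] at h0
      rw [show n' + 1 * m + m = n' + 2 * m by ring] at h1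
      rw [show n' + 2 * m + m = n' + 3 * m by ring] at h2
      rw [show n' + 3 * m + m = n' + 4 * m by ring] at h3
      rw [h3, h2, h1, h0]
    have hlen : P (n' + 4 * m + 1) - P (n' + 4 * m) = P (n' + 1) - P n' := by
      cases hy : y n'
      · rw [(P_a hy).1, (P_a (hlast.trans hy)).1]; omega
      · rw [(P_b hy).1, (P_b (hlast.trans hy)).1]; omega
    obtain ⟨j, hj, hne⟩ := ih m hmp n' hm0
    apply hne
    rcases Nat.eq_zero_or_pos j with rfl | hj0
    · simpa using hz.symm
    · obtain ⟨k, rfl⟩ : ∃ k, j = k + 1 := ⟨j - 1, by omega⟩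
      have h1 : P (n' + 1 + k) + 5 ≤ P (n' + 4 * m) := by
        have h2 := P_step (n' + 1 + k)
        have h3 : P (n' + 1 + k + 1) ≤ P (n' + 4 * m) := pos_mono h y (by omega)
        omega
      have h4 : P (n' + 1 + 4 * m) = P (n' + 4 * m + 1) := by congr 1; ring
      have h5 := P_step (n' + 4 * m)
      have h6 := P_step n'
      rw [show n' + m + (k + 1) = n' + 1 + k + m by ring, show n' + (k + 1) = n' + 1 + k by ring]
      exact (hkY k (by omega)).symm

end Pool.Agent.R123.FivePow
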